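import Mathlib

/-!
The intersection body operator can increase the Banach-Mazur distance to the Euclidean ball.

Example in dimension three: `K = {x : |x| ≤ 1, 3 |x_i| + |x_j| ≤ 3 for i ≠ j}`.  The sections
orthogonal to `(± 1, ± 1, ± 1)` are unit discs, those orthogonal to the coordinate axes have area
at most `107 / 36`, and `K` contains the ball of radius `3 / √10`.
-/

open MeasureTheory Metric Module Set

namespace Pool.Agent.Results.MP_4e5529_gt.Increase

/-- `n`-dimensional Euclidean space. -/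
abbrev E (n : ℕ) : Type := EuclideanSpace ℝ (Fin n)

section Defs

variable {V : Type*} [NormedAddCommGroup V] [InnerProductSpace ℝ V]

/-- An origin-symmetric convex body. -/
def IsSymConvexBody (K : Set V) : Prop :=
  IsCompact K ∧ Convex ℝ K ∧ (interior K).Nonempty ∧ ∀ x ∈ K, -x ∈ K

/-- The hyperplane orthogonal to `u`. -/
noncomputable abbrev Perp (u : V) : Submodule ℝ V := (Submodule.span ℝ {u})ᗮ

variable [FiniteDimensional ℝ V] [MeasurableSpace V] [BorelSpace V]

/-- The volume, inside the hyperplane `u^⊥`, of the section `K ∩ u^⊥`. -/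
noncomputable def sectionVolume (K : Set V) (u : V) : ℝ :=
  ((volume : Measure (Perp u)) {y : Perp u | (y : V) ∈ K}).toReal

/-- The intersection body of `K`. -/
def intersectionBody (K : Set V) : Set V :=
  {x | x = 0 ∨ (x ≠ 0 ∧ ‖x‖ ≤ sectionVolume K (‖x‖⁻¹ • x))}

omit [FiniteDimensional ℝ V] [MeasurableSpace V] [BorelSpace V] in
/-- The Banach-Mazur distance of origin-symmetric convex bodies. -/
noncomputable def bmDist (L M : Set V) : ℝ :=
  sInf {c : ℝ | 1 ≤ c ∧ ∃ T : V ≃ₗ[ℝ] V, M ⊆ T '' L ∧ T '' L ⊆ (fun x => c • x) '' M}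

end Defs

/-! ### The planar region -/

/-- The upper boundary function of the planar region. -/
noncomputable def F (x : ℝ) : ℝ := min (1 - |x| / 3) (min (17 / 12 - |x|) (3 - 3 * |x|))

theorem F_cont : Continuous F := by
  unfold F; fun_prop

theorem int_affine (a b α β : ℝ) :
    (∫ x in a..b, (α + β * x)) = α * (b - a) + β * (b ^ 2 - a ^ 2) / 2 := by
  rw [intervalIntegral.integral_add (by simp) (by
    apply Continuous.intervalIntegrable; fun_prop)]
  rw [intervalIntegral.integral_const, intervalIntegral.integral_const_mul, integral_id]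
  simp only [smul_eq_mul]
  ring

theorem F_half_pos : (∫ x in (0 : ℝ)..1, F x) = 107 / 144 := by
  have hI : ∀ a b : ℝ, IntervalIntegrable F volume a b :=
    fun a b => F_cont.intervalIntegrable a b
  rw [← intervalIntegral.integral_add_adjacent_intervals (hI 0 (15 / 24)) (hI (15 / 24) 1),
    ← intervalIntegral.integral_add_adjacent_intervals (hI (15 / 24) (19 / 24)) (hI (19 / 24) 1)]
  have h1 : (∫ x in (0 : ℝ)..(15 / 24), F x) = ∫ x in (0 : ℝ)..(15 / 24), (1 + (-1 / 3) * x) := by
    apply intervalIntegral.integral_congr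
    intro x hx
    rw [uIcc_of_le (by norm_num)] at hx
    simp only [F]
    rw [abs_of_nonneg hx.1, min_eq_left]
    · ring
    · apply le_min <;> linarith [hx.1, hx.2]
  have h2 : (∫ x in (15 / 24 : ℝ)..(19 / 24), F x) =
      ∫ x in (15 / 24 : ℝ)..(19 / 24), (17 / 12 + (-1) * x) := by
    apply intervalIntegral.integral_congr
    intro x hx
    rw [uIcc_of_le (by norm_num)] at hx
    simp only [F]
    rw [abs_of_nonneg (by linarith [hx.1]), min_eq_right, min_eq_left]
    · ring
    · linarith [hx.1, hx.2]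
    · rw [min_eq_left] <;> linarith [hx.1, hx.2]
  have h3 : (∫ x in (19 / 24 : ℝ)..1, F x) = ∫ x in (19 / 24 : ℝ)..1, (3 + (-3) * x) := by
    apply intervalIntegral.integral_congr
    intro x hx
    rw [uIcc_of_le (by norm_num)] at hx
    simp only [F]
    rw [abs_of_nonneg (by linarith [hx.1]), min_eq_right, min_eq_right]
    · ring
    · linarith [hx.1, hx.2]
    · rw [min_eq_right] <;> linarith [hx.1, hx.2]
  rw [h1, h2, h3, int_affine, int_affine, int_affine]
  norm_num

theorem F_int : (∫ x in (-1 : ℝ)..1, F x) = 107 / 72 := by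
  have hI : ∀ a b : ℝ, IntervalIntegrable F volume a b :=
    fun a b => F_cont.intervalIntegrable a b
  rw [← intervalIntegral.integral_add_adjacent_intervals (hI (-1) 0) (hI 0 1), F_half_pos]
  have h : (∫ x in (-1 : ℝ)..0, F x) = ∫ x in (0 : ℝ)..1, F x := by
    have h1 := intervalIntegral.integral_comp_neg (a := (0 : ℝ)) (b := 1) F
    rw [neg_zero] at h1
    rw [← h1]
    apply intervalIntegral.integral_congr
    intro x _
    simp [F]
  rw [h, F_half_pos]
  norm_num

/-- The planar region. -/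
def region : Set (ℝ × ℝ) :=
  {p | p.1 ^ 2 + p.2 ^ 2 ≤ 1 ∧ 3 * |p.1| + |p.2| ≤ 3 ∧ |p.1| + 3 * |p.2| ≤ 3}

theorem region_closed : IsClosed region := by
  have h1 : IsClosed {p : ℝ × ℝ | p.1 ^ 2 + p.2 ^ 2 ≤ 1} :=
    isClosed_le (by fun_prop) continuous_const
  have h2 : IsClosed {p : ℝ × ℝ | 3 * |p.1| + |p.2| ≤ 3} :=
    isClosed_le (by fun_prop) continuous_const
  have h3 : IsClosed {p : ℝ × ℝ | |p.1| + 3 * |p.2| ≤ 3} :=
    isClosed_le (by fun_prop) continuous_const
  exact h1.inter (h2.inter h3)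

theorem region_slice (x : ℝ) : Prod.mk x ⁻¹' region ⊆ {y | |x| ≤ 1 ∧ |y| ≤ F x} := by
  intro y hy
  obtain ⟨h1, h2, h3⟩ := hy
  simp only at h1 h2 h3
  have h4 : |x| + |y| ≤ 17 / 12 := by
    rw [← sq_abs x, ← sq_abs y] at h1
    nlinarith [sq_nonneg (|x| - |y|), abs_nonneg x, abs_nonneg y]
  refine ⟨by linarith [abs_nonneg y], ?_⟩
  unfold F
  refine le_min ?_ (le_min ?_ ?_) <;> linarith

theorem region_volume : (volume : Measure (ℝ × ℝ)) region ≤ ENNReal.ofReal (107 / 36) := by
  have hF0 : ∀ x : ℝ, |x| ≤ 1 → 0 ≤ F x := by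
    intro x hx
    unfold F
    refine le_min ?_ (le_min ?_ ?_) <;> linarith [abs_nonneg x]
  calc (volume : Measure (ℝ × ℝ)) region
      = ∫⁻ x, volume (Prod.mk x ⁻¹' region) := by
        rw [Measure.volume_eq_prod, Measure.prod_apply region_closed.measurableSet]
    _ ≤ ∫⁻ x, (Icc (-1 : ℝ) 1).indicator (fun x => ENNReal.ofReal (2 * F x)) x := by
        apply lintegral_mono
        intro x
        by_cases hx : |x| ≤ 1
        · have hxm : x ∈ Icc (-1 : ℝ) 1 := abs_le.mp hx
          simp only [indicator_of_mem hxm]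
          calc volume (Prod.mk x ⁻¹' region) ≤ volume (Icc (-F x) (F x)) := by
                apply measure_mono
                intro y hy
                exact abs_le.mp (region_slice x hy).2
            _ = ENNReal.ofReal (2 * F x) := by
                rw [Real.volume_Icc]; congr 1; ring
        · have : Prod.mk x ⁻¹' region = ∅ := by
            ext y
            simp only [mem_empty_iff_false, iff_false]
            intro hy
            exact hx (region_slice x hy).1
          simp only [this]; simp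
    _ = ∫⁻ x in Icc (-1 : ℝ) 1, ENNReal.ofReal (2 * F x) := by
        rw [lintegral_indicator measurableSet_Icc]
    _ = ENNReal.ofReal (∫ x in Icc (-1 : ℝ) 1, 2 * F x) := by
        rw [ofReal_integral_eq_lintegral_ofReal]
        · exact (continuous_const.mul F_cont).continuousOn.integrableOn_compact isCompact_Icc
        · refine (ae_restrict_iff' measurableSet_Icc).mpr (Filter.Eventually.of_forall ?_)
          intro x hx
          have := hF0 x (abs_le.mpr hx)
          simp only [Pi.zero_apply]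
          positivity
    _ = ENNReal.ofReal (107 / 36) := by
        congr 1
        rw [integral_Icc_eq_integral_Ioc, ← intervalIntegral.integral_of_le (by norm_num),
          intervalIntegral.integral_const_mul, F_int]
        norm_num

/-! ### Orthonormal bases from orthonormal pairs -/

theorem exists_basis {V : Type*} [NormedAddCommGroup V] [InnerProductSpace ℝ V]
    [FiniteDimensional ℝ V] (hV : finrank ℝ V = 2) (v : Fin 2 → V) (hv : Orthonormal ℝ v) :
    ∃ b : OrthonormalBasis (Fin 2) ℝ V, ⇑b = v := by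
  have hcard : Fintype.card (Fin 2) = finrank ℝ V := by rw [hV]; rfl
  let B : Basis (Fin 2) ℝ V :=
    basisOfLinearIndependentOfCardEqFinrank hv.linearIndependent hcard
  have hBv : ⇑B = v := coe_basisOfLinearIndependentOfCardEqFinrank _ _
  exact ⟨B.toOrthonormalBasis (by rw [hBv]; exact hv), by simp [hBv]⟩

/-! ### The body -/

/-- The example. -/
def K0 : Set (E 3) := {x | ‖x‖ ≤ 1 ∧ ∀ i j : Fin 3, i ≠ j → 3 * |x i| + |x j| ≤ 3}

theorem norm_sq3 (x : E 3) : ‖x‖ ^ 2 = (x 0) ^ 2 + (x 1) ^ 2 + (x 2) ^ 2 := by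
  rw [EuclideanSpace.norm_sq_eq, Fin.sum_univ_three]
  simp

theorem two_coord (x : E 3) (i j : Fin 3) (hij : i ≠ j) : (x i) ^ 2 + (x j) ^ 2 ≤ ‖x‖ ^ 2 := by
  rw [norm_sq3]
  fin_cases i <;> fin_cases j <;> simp at hij ⊢ <;>
    nlinarith [sq_nonneg (x 0), sq_nonneg (x 1), sq_nonneg (x 2)]

theorem small_ball : closedBall (0 : E 3) (3 / Real.sqrt 10) ⊆ K0 := by
  intro x hx
  rw [mem_closedBall_zero_iff] at hx
  have h10 : 0 < Real.sqrt 10 := Real.sqrt_pos.mpr (by norm_num)
  have hs : Real.sqrt 10 ^ 2 = 10 := Real.sq_sqrt (by norm_num)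
  have hx2 : ‖x‖ ^ 2 ≤ 9 / 10 := by
    have h1 : ‖x‖ ^ 2 ≤ (3 / Real.sqrt 10) ^ 2 := by gcongr
    rwa [div_pow, hs, show (3 : ℝ) ^ 2 = 9 by norm_num] at h1
  refine ⟨by nlinarith [norm_nonneg x], fun i j hij => ?_⟩
  have h2 := two_coord x i j hij
  rw [← sq_abs (x i), ← sq_abs (x j)] at h2
  nlinarith [abs_nonneg (x i), abs_nonneg (x j), sq_nonneg (|x i| - 3 * |x j|)]

theorem K0_sub : K0 ⊆ closedBall (0 : E 3) 1 := fun x hx => by
  rw [mem_closedBall_zero_iff]; exact hx.1

theorem K0_closed : IsClosed K0 := by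
  have : K0 = closedBall (0 : E 3) 1 ∩
      ⋂ i : Fin 3, ⋂ j : Fin 3, {x : E 3 | i ≠ j → 3 * |x i| + |x j| ≤ 3} := by
    ext x
    simp [K0]
  rw [this]
  refine isClosed_closedBall.inter (isClosed_iInter fun i => isClosed_iInter fun j => ?_)
  by_cases hij : i = j
  · simp [hij]
  · simp only [ne_eq, hij, not_false_eq_true, true_imp_iff]
    exact isClosed_le (by fun_prop) continuous_const

theorem K0_body : IsSymConvexBody K0 := by
  refine ⟨(isCompact_closedBall (0 : E 3) 1).of_isClosed_subset K0_closed K0_sub, ?_, ?_, ?_⟩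
  · intro x hx y hy a b ha hb hab
    refine ⟨?_, fun i j hij => ?_⟩
    · calc ‖a • x + b • y‖ ≤ ‖a • x‖ + ‖b • y‖ := norm_add_le _ _
        _ = a * ‖x‖ + b * ‖y‖ := by
          rw [norm_smul, norm_smul, Real.norm_of_nonneg ha, Real.norm_of_nonneg hb]
        _ ≤ a * 1 + b * 1 := by gcongr; exacts [hx.1, hy.1]
        _ = 1 := by linarith
    · have h1 := hx.2 i j hij
      have h2 := hy.2 i j hij
      have e : ∀ k : Fin 3, |(a • x + b • y) k| ≤ a * |x k| + b * |y k| := by
        intro k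
        have : (a • x + b • y) k = a * x k + b * y k := by simp
        rw [this]
        calc |a * x k + b * y k| ≤ |a * x k| + |b * y k| := abs_add_le _ _
          _ = a * |x k| + b * |y k| := by
            rw [abs_mul, abs_mul, abs_of_nonneg ha, abs_of_nonneg hb]
      have e1 := e i
      have e2 := e j
      have h3 := mul_le_mul_of_nonneg_left h1 ha
      have h4 := mul_le_mul_of_nonneg_left h2 hb
      have : a * 3 + b * 3 = 3 := by rw [← add_mul, hab, one_mul]
      linarith
  · refine ⟨0, ?_⟩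
    rw [mem_interior_iff_mem_nhds]
    refine Filter.mem_of_superset (closedBall_mem_nhds (0 : E 3) ?_) small_ball
    have h10 : 0 < Real.sqrt 10 := Real.sqrt_pos.mpr (by norm_num)
    positivity
  · intro x hx
    refine ⟨by rw [norm_neg]; exact hx.1, fun i j hij => ?_⟩
    have e : ∀ k : Fin 3, |(-x) k| = |x k| := by intro k; simp
    rw [e, e]
    exact hx.2 i j hij

theorem finrank_perp (u : E 3) (hu : u ≠ 0) : finrank ℝ (Submodule.span ℝ {u})ᗮ = 2 := by
  have : Fact (finrank ℝ (E 3) = 2 + 1) := ⟨by simp⟩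
  exact Submodule.finrank_orthogonal_span_singleton hu

theorem vol_disc (u : E 3) (hu : u ≠ 0) (r : ℝ) (hr : 0 ≤ r) :
    (volume : Measure (Submodule.span ℝ {u})ᗮ) (closedBall 0 r) =
      ENNReal.ofReal (r ^ 2 * Real.pi) := by
  have h := finrank_perp u hu
  have : Nontrivial (Submodule.span ℝ {u})ᗮ := Module.nontrivial_of_finrank_pos (R := ℝ)
    (by rw [h]; norm_num)
  rw [InnerProductSpace.volume_closedBall_of_dim_even (k := 1) (by rw [h]), h]
  rw [ENNReal.ofReal_mul (by positivity), ENNReal.ofReal_pow hr]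
  simp

theorem section_sub (u : E 3) :
    {y : (Submodule.span ℝ {u})ᗮ | (y : E 3) ∈ K0} ⊆ closedBall 0 1 := by
  intro y hy
  rw [mem_closedBall_zero_iff]
  exact hy.1

theorem section_finite (u : E 3) (hu : u ≠ 0) :
    (volume : Measure (Submodule.span ℝ {u})ᗮ) {y | (y : E 3) ∈ K0} ≠ ⊤ := by
  refine ne_top_of_le_ne_top ?_ (measure_mono (section_sub u))
  rw [vol_disc u hu 1 zero_le_one]
  exact ENNReal.ofReal_ne_top

theorem section_le_pi (u : E 3) (hu : u ≠ 0) : sectionVolume K0 u ≤ Real.pi := by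
  unfold sectionVolume
  have h1 := measure_mono (μ := (volume : Measure (Submodule.span ℝ {u})ᗮ)) (section_sub u)
  rw [vol_disc u hu 1 zero_le_one, one_pow, one_mul] at h1
  exact ENNReal.toReal_le_of_le_ofReal Real.pi_pos.le h1

theorem section_ge (u : E 3) (hu : u ≠ 0) : 9 / 10 * Real.pi ≤ sectionVolume K0 u := by
  unfold sectionVolume
  have hs : Real.sqrt 10 ^ 2 = 10 := Real.sq_sqrt (by norm_num)
  have h1 : closedBall (0 : (Submodule.span ℝ {u})ᗮ) (3 / Real.sqrt 10) ⊆
      {y | (y : E 3) ∈ K0} := by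
    intro y hy
    apply small_ball
    rw [mem_closedBall_zero_iff] at hy ⊢
    exact hy
  have h2 := measure_mono (μ := (volume : Measure (Submodule.span ℝ {u})ᗮ)) h1
  rw [vol_disc u hu _ (by positivity), div_pow, hs] at h2
  rw [← ENNReal.toReal_ofReal (r := 9 / 10 * Real.pi) (by positivity)]
  refine ENNReal.toReal_mono (section_finite u hu) ?_
  convert h2 using 2
  norm_num

/-- The section orthogonal to `(± 1, ± 1, ± 1)` is a unit disc. -/
theorem section_diag (u : E 3) (s : Fin 3 → ℝ) (hs : ∀ i, s i = 1 ∨ s i = -1)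
    (c : ℝ) (hc : c ≠ 0) (hu : ∀ i, u i = c * s i) : Real.pi ≤ sectionVolume K0 u := by
  have hu0 : u ≠ 0 := by
    intro h
    have h1 := hu 0
    rw [h] at h1
    have h0 : (0 : E 3) 0 = 0 := rfl
    rw [h0] at h1
    rcases hs 0 with h2 | h2
    · rw [h2] at h1; apply hc; linarith
    · rw [h2] at h1; apply hc; linarith
  unfold sectionVolume
  have h1 : closedBall (0 : (Submodule.span ℝ {u})ᗮ) 1 ⊆ {y | (y : E 3) ∈ K0} := by
    intro y hy
    rw [mem_closedBall_zero_iff] at hy
    have hy' : ‖(y : E 3)‖ ≤ 1 := hy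
    refine ⟨hy', ?_⟩
    have horth : inner ℝ u (y : E 3) = (0 : ℝ) := by
      have := y.2
      rw [Submodule.mem_orthogonal_singleton_iff_inner_right] at this
      exact this
    rw [PiLp.inner_apply, Fin.sum_univ_three] at horth
    simp only [RCLike.inner_apply, conj_trivial, hu] at horth
    set a := (y : E 3) 0
    set b := (y : E 3) 1
    set d := (y : E 3) 2
    have hlin : s 0 * a + s 1 * b + s 2 * d = 0 := by
      have : c * (s 0 * a + s 1 * b + s 2 * d) = 0 := by linarith
      rcases mul_eq_zero.mp this with h | h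
      · exact absurd h hc
      · exact h
    have hnorm : a ^ 2 + b ^ 2 + d ^ 2 ≤ 1 := by
      rw [← norm_sq3]
      nlinarith [norm_nonneg (y : E 3)]
    have sq1 : ∀ i, s i ^ 2 = 1 := by
      intro i; rcases hs i with h | h <;> rw [h] <;> norm_num
    -- key inequality
    have key : ∀ p q r s1 s2 s3 : ℝ, s1 ^ 2 = 1 → s2 ^ 2 = 1 → s3 ^ 2 = 1 →
        s1 * p + s2 * q + s3 * r = 0 → p ^ 2 + q ^ 2 + r ^ 2 ≤ 1 → 3 * |p| + |q| ≤ 3 := by
      intro p q r s1 s2 s3 h1 h2 h3 h4 h5
      have h6 : r ^ 2 = (s1 * p + s2 * q) ^ 2 := by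
        have : s3 * r = -(s1 * p + s2 * q) := by linarith
        calc r ^ 2 = s3 ^ 2 * r ^ 2 := by rw [h3, one_mul]
          _ = (s3 * r) ^ 2 := by ring
          _ = (s1 * p + s2 * q) ^ 2 := by rw [this]; ring
      have h7 : (s1 * p + s2 * q) ^ 2 ≥ p ^ 2 + q ^ 2 - 2 * |p| * |q| := by
        have e : (s1 * p + s2 * q) ^ 2 = p ^ 2 + q ^ 2 + 2 * ((s1 * s2) * (p * q)) := by
          calc (s1 * p + s2 * q) ^ 2 = s1 ^ 2 * p ^ 2 + s2 ^ 2 * q ^ 2 +
                2 * ((s1 * s2) * (p * q)) := by ring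
            _ = p ^ 2 + q ^ 2 + 2 * ((s1 * s2) * (p * q)) := by rw [h1, h2]; ring
        have e2 : |(s1 * s2) * (p * q)| = |p| * |q| := by
          have : |s1 * s2| = 1 := by
            have : (s1 * s2) ^ 2 = 1 := by rw [mul_pow, h1, h2]; ring
            rw [← sq_abs] at this
            nlinarith [abs_nonneg (s1 * s2)]
          rw [abs_mul, this, one_mul, abs_mul]
        have e3 := neg_abs_le ((s1 * s2) * (p * q))
        rw [e2] at e3
        rw [e]
        linarith
      rw [← sq_abs p, ← sq_abs q] at h7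
      rw [h6, ← sq_abs p, ← sq_abs q] at h5
      nlinarith [abs_nonneg p, abs_nonneg q, sq_nonneg (5 * |p| - 7 * |q|)]
    intro i j hij
    fin_cases i <;> fin_cases j <;> simp at hij ⊢
    · exact key a b d _ _ _ (sq1 0) (sq1 1) (sq1 2) hlin hnorm
    · exact key a d b _ _ _ (sq1 0) (sq1 2) (sq1 1) (by linarith) (by linarith)
    · exact key b a d _ _ _ (sq1 1) (sq1 0) (sq1 2) (by linarith) (by linarith)
    · exact key b d a _ _ _ (sq1 1) (sq1 2) (sq1 0) (by linarith) (by linarith)
    · exact key d a b _ _ _ (sq1 2) (sq1 0) (sq1 1) (by linarith) (by linarith)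
    · exact key d b a _ _ _ (sq1 2) (sq1 1) (sq1 0) (by linarith) (by linarith)
  have h2 := measure_mono (μ := (volume : Measure (Submodule.span ℝ {u})ᗮ)) h1
  rw [vol_disc u hu0 1 zero_le_one, one_pow, one_mul] at h2
  rw [← ENNReal.toReal_ofReal (r := Real.pi) Real.pi_pos.le]
  exact ENNReal.toReal_mono (section_finite u hu0) h2

/-- The sections orthogonal to the coordinate axes. -/
theorem section_axis (i j k : Fin 3) (hij : i ≠ j) (hik : i ≠ k) (hjk : j ≠ k) :
    sectionVolume K0 (EuclideanSpace.single i 1) ≤ 107 / 36 := by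
  set u : E 3 := EuclideanSpace.single i 1 with hu
  have hu0 : u ≠ 0 := by
    intro h
    have h1 : u i = 1 := by simp [hu]
    rw [h] at h1
    simp at h1
  have hmem : ∀ l : Fin 3, i ≠ l → (EuclideanSpace.single l 1 : E 3) ∈ (Submodule.span ℝ {u})ᗮ := by
    intro l hl
    rw [Submodule.mem_orthogonal_singleton_iff_inner_right]
    rw [hu, EuclideanSpace.inner_single_left]
    simp [hl]
  let v : Fin 2 → (Submodule.span ℝ {u})ᗮ :=
    ![⟨EuclideanSpace.single j 1, hmem j hij⟩, ⟨EuclideanSpace.single k 1, hmem k hik⟩]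
  have hv : Orthonormal ℝ v := by
    rw [orthonormal_iff_ite]
    intro p q
    fin_cases p <;> fin_cases q <;>
      simp [v, Submodule.coe_inner, EuclideanSpace.inner_single_left, hjk, hjk.symm]
  obtain ⟨b, hb⟩ := exists_basis (finrank_perp u hu0) v hv
  -- coordinates
  have hc0 : ∀ y : (Submodule.span ℝ {u})ᗮ, b.repr y 0 = (y : E 3) j := by
    intro y
    rw [b.repr_apply_apply, hb]
    simp [v, Submodule.coe_inner, EuclideanSpace.inner_single_left]
  have hc1 : ∀ y : (Submodule.span ℝ {u})ᗮ, b.repr y 1 = (y : E 3) k := by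
    intro y
    rw [b.repr_apply_apply, hb]
    simp [v, Submodule.coe_inner, EuclideanSpace.inner_single_left]
  have hmp1 := b.measurePreserving_repr
  have hmp2 : MeasurePreserving (@WithLp.ofLp 2 (Fin 2 → ℝ)) volume volume :=
    PiLp.volume_preserving_ofLp (Fin 2)
  have hmp3 := volume_preserving_finTwoArrow ℝ
  have hmp := hmp3.comp (hmp2.comp hmp1)
  have hsub : {y : (Submodule.span ℝ {u})ᗮ | (y : E 3) ∈ K0} ⊆
      (MeasurableEquiv.finTwoArrow ∘ (@WithLp.ofLp 2 (Fin 2 → ℝ)) ∘ b.repr) ⁻¹' region := by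
    intro y hy
    change _ ∈ region
    have e1 : ((MeasurableEquiv.finTwoArrow ∘ (@WithLp.ofLp 2 (Fin 2 → ℝ)) ∘ b.repr) y) =
        ((y : E 3) j, (y : E 3) k) := by
      rw [← hc0, ← hc1]
      rfl
    rw [e1]
    refine ⟨?_, hy.2 j k hjk, ?_⟩
    · simp only
      have := two_coord (y : E 3) j k hjk
      have h1 := hy.1
      nlinarith [norm_nonneg (y : E 3)]
    · have := hy.2 k j hjk.symm
      simp only
      linarith
  have h1 := measure_mono (μ := (volume : Measure (Submodule.span ℝ {u})ᗮ)) hsub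
  rw [hmp.measure_preimage region_closed.measurableSet.nullMeasurableSet] at h1
  exact ENNReal.toReal_le_of_le_ofReal (by norm_num) (h1.trans region_volume)

/-! ### Distances -/

theorem dist_K0_le : bmDist K0 (closedBall (0 : E 3) 1) ≤ Real.sqrt 10 / 3 := by
  have h10 : 0 < Real.sqrt 10 := Real.sqrt_pos.mpr (by norm_num)
  have hs : Real.sqrt 10 ^ 2 = 10 := Real.sq_sqrt (by norm_num)
  have h3 : 3 ≤ Real.sqrt 10 := by
    rw [Real.le_sqrt' (by norm_num)]; norm_num
  have hc0 : Real.sqrt 10 / 3 ≠ 0 := by positivity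
  refine csInf_le ⟨1, fun c hc => hc.1⟩ ⟨?_, ?_⟩
  · rw [le_div_iff₀ (by norm_num)]; linarith
  · refine ⟨LinearEquiv.smulOfNeZero ℝ (E 3) (Real.sqrt 10 / 3) hc0, ?_, ?_⟩
    · intro x hx
      rw [mem_closedBall_zero_iff] at hx
      refine ⟨(3 / Real.sqrt 10) • x, ?_, ?_⟩
      · apply small_ball
        rw [mem_closedBall_zero_iff, norm_smul, Real.norm_of_nonneg (by positivity)]
        calc 3 / Real.sqrt 10 * ‖x‖ ≤ 3 / Real.sqrt 10 * 1 := by gcongr
          _ = 3 / Real.sqrt 10 := mul_one _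
      · rw [LinearEquiv.smulOfNeZero_apply, smul_smul]
        have : Real.sqrt 10 / 3 * (3 / Real.sqrt 10) = 1 := by field_simp
        rw [this, one_smul]
    · rintro _ ⟨x, hx, rfl⟩
      exact ⟨x, K0_sub hx, rfl⟩

theorem section_smul_norm (x : E 3) (hx : x ≠ 0) : ‖x‖⁻¹ • x ≠ 0 := by
  intro h
  rcases smul_eq_zero.mp h with h | h
  · exact (inv_ne_zero (norm_ne_zero_iff.mpr hx)) h
  · exact hx h

theorem dist_nonempty : {c : ℝ | 1 ≤ c ∧ ∃ T : E 3 ≃ₗ[ℝ] E 3,
    closedBall (0 : E 3) 1 ⊆ T '' (intersectionBody K0) ∧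
      T '' (intersectionBody K0) ⊆ (fun x => c • x) '' closedBall (0 : E 3) 1}.Nonempty := by
  have hpi := Real.pi_pos
  have hm : 0 < 9 / 10 * Real.pi := by positivity
  refine ⟨10 / 9, by norm_num, LinearEquiv.smulOfNeZero ℝ (E 3) (9 / 10 * Real.pi)⁻¹
    (by positivity), ?_, ?_⟩
  · intro x hx
    rw [mem_closedBall_zero_iff] at hx
    refine ⟨(9 / 10 * Real.pi) • x, ?_, ?_⟩
    · by_cases h0 : (9 / 10 * Real.pi) • x = 0
      · left; exact h0
      · right
        refine ⟨h0, ?_⟩
        refine le_trans ?_ (section_ge _ (section_smul_norm _ h0))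
        rw [norm_smul, Real.norm_of_nonneg hm.le]
        calc 9 / 10 * Real.pi * ‖x‖ ≤ 9 / 10 * Real.pi * 1 := by gcongr
          _ = 9 / 10 * Real.pi := mul_one _
    · rw [LinearEquiv.smulOfNeZero_apply, smul_smul, inv_mul_cancel₀ hm.ne', one_smul]
  · rintro _ ⟨x, hx, rfl⟩
    rw [LinearEquiv.smulOfNeZero_apply]
    refine ⟨((10 / 9)⁻¹ * (9 / 10 * Real.pi)⁻¹) • x, ?_, ?_⟩
    · rw [mem_closedBall_zero_iff, norm_smul, Real.norm_of_nonneg (by positivity)]
      have hx' : ‖x‖ ≤ Real.pi := by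
        rcases hx with h | ⟨h0, h1⟩
        · rw [h, norm_zero]; exact hpi.le
        · exact h1.trans (section_le_pi _ (section_smul_norm _ h0))
      have e : (10 / 9 : ℝ)⁻¹ * (9 / 10 * Real.pi)⁻¹ = Real.pi⁻¹ := by
        field_simp
      rw [e, inv_mul_le_iff₀ hpi, mul_one]
      exact hx'
    · simp only
      rw [smul_smul, ← mul_assoc]
      norm_num

theorem lower_bound (c : ℝ) (hc1 : 1 ≤ c) (T : E 3 ≃ₗ[ℝ] E 3)
    (h1 : closedBall (0 : E 3) 1 ⊆ T '' (intersectionBody K0))
    (h2 : T '' (intersectionBody K0) ⊆ (fun x => c • x) '' closedBall (0 : E 3) 1) :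
    36 * Real.pi / 107 ≤ c := by
  have hpi := Real.pi_pos
  have hc0 : 0 < c := by linarith
  set e : Fin 3 → E 3 := fun i => EuclideanSpace.single i 1 with he
  have hax : ∀ i, sectionVolume K0 (e i) ≤ 107 / 36 := by
    intro i
    fin_cases i
    · exact section_axis 0 1 2 (by decide) (by decide) (by decide)
    · exact section_axis 1 0 2 (by decide) (by decide) (by decide)
    · exact section_axis 2 0 1 (by decide) (by decide) (by decide)
  -- lower bound for `‖T e_i‖`
  have hTe : ∀ i, 36 / 107 ≤ ‖T (e i)‖ := by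
    intro i
    have hen : ‖e i‖ = 1 := by simp [he]
    have he0 : e i ≠ 0 := by
      intro h; rw [h, norm_zero] at hen; norm_num at hen
    have hT0 : T (e i) ≠ 0 := by
      intro h; exact he0 ((map_eq_zero_iff T T.injective).mp h)
    have hn : 0 < ‖T (e i)‖ := norm_pos_iff.mpr hT0
    have hmem : (‖T (e i)‖)⁻¹ • T (e i) ∈ closedBall (0 : E 3) 1 := by
      rw [mem_closedBall_zero_iff, norm_smul, norm_inv, norm_norm, inv_mul_cancel₀ hn.ne']
    obtain ⟨x, hx, hxe⟩ := h1 hmem
    have hx' : x = (‖T (e i)‖)⁻¹ • e i := by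
      apply T.injective
      rw [hxe, map_smul]
    have hxn : ‖x‖ = (‖T (e i)‖)⁻¹ := by
      rw [hx', norm_smul, norm_inv, norm_norm, hen, mul_one]
    rcases hx with h | ⟨h0, h3⟩
    · rw [h, norm_zero] at hxn
      exact absurd hxn.symm (inv_ne_zero hn.ne')
    · have e1 : ‖x‖⁻¹ • x = e i := by
        rw [hxn, inv_inv, hx', smul_smul, mul_inv_cancel₀ hn.ne', one_smul]
      rw [e1, hxn] at h3
      have h4 := h3.trans (hax i)
      rw [inv_le_comm₀ hn (by norm_num)] at h4
      norm_num at h4 ⊢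
      exact h4
  -- upper bound at the diagonal points
  have hdiag : ∀ s : Fin 3 → ℝ, (∀ i, s i = 1 ∨ s i = -1) →
      ‖s 0 • T (e 0) + s 1 • T (e 1) + s 2 • T (e 2)‖ ^ 2 ≤ 3 * c ^ 2 / Real.pi ^ 2 := by
    intro s hs
    have h3 : 0 < Real.sqrt 3 := Real.sqrt_pos.mpr (by norm_num)
    have hs3 : Real.sqrt 3 ^ 2 = 3 := Real.sq_sqrt (by norm_num)
    set w : E 3 := s 0 • e 0 + s 1 • e 1 + s 2 • e 2 with hw
    have hwi : ∀ i, w i = s i := by
      intro i
      fin_cases i <;> simp [hw, he]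
    have hwn : ‖w‖ = Real.sqrt 3 := by
      have : ‖w‖ ^ 2 = 3 := by
        rw [norm_sq3, hwi, hwi, hwi]
        have sq1 : ∀ i, s i ^ 2 = 1 := by
          intro i; rcases hs i with h | h <;> rw [h] <;> norm_num
        rw [sq1, sq1, sq1]; norm_num
      rw [← this, Real.sqrt_sq (norm_nonneg _)]
    have hw0 : w ≠ 0 := by
      intro h; rw [h, norm_zero] at hwn; exact h3.ne hwn
    have hmem : (Real.pi / Real.sqrt 3) • w ∈ intersectionBody K0 := by
      right
      have hnorm : ‖(Real.pi / Real.sqrt 3) • w‖ = Real.pi := by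
        rw [norm_smul, Real.norm_of_nonneg (by positivity), hwn]
        field_simp
      refine ⟨?_, ?_⟩
      · intro h; rw [h, norm_zero] at hnorm; exact hpi.ne hnorm
      · rw [hnorm, smul_smul]
        refine section_diag _ s hs (Real.pi⁻¹ * (Real.pi / Real.sqrt 3)) (by positivity) ?_
        intro i
        rw [PiLp.smul_apply, hwi, smul_eq_mul]
    obtain ⟨y, hy, hye⟩ := h2 ⟨_, hmem, rfl⟩
    rw [mem_closedBall_zero_iff] at hy
    simp only at hye
    have hTw : s 0 • T (e 0) + s 1 • T (e 1) + s 2 • T (e 2) = T w := by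
      rw [hw]; simp only [map_add, map_smul]
    rw [hTw]
    have h5 : ‖T ((Real.pi / Real.sqrt 3) • w)‖ ≤ c := by
      rw [← hye, norm_smul, Real.norm_of_nonneg hc0.le]
      calc c * ‖y‖ ≤ c * 1 := by gcongr
        _ = c := mul_one _
    rw [map_smul, norm_smul, Real.norm_of_nonneg (by positivity)] at h5
    have h6 : ‖T w‖ ≤ c * Real.sqrt 3 / Real.pi := by
      rw [le_div_iff₀ hpi]
      have h7 := mul_le_mul_of_nonneg_right h5 h3.le
      calc ‖T w‖ * Real.pi = Real.pi / Real.sqrt 3 * ‖T w‖ * Real.sqrt 3 := by field_simp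
        _ ≤ c * Real.sqrt 3 := h7
    calc ‖T w‖ ^ 2 ≤ (c * Real.sqrt 3 / Real.pi) ^ 2 := by gcongr
      _ = 3 * c ^ 2 / Real.pi ^ 2 := by rw [div_pow, mul_pow, hs3]; ring
  set A := T (e 0)
  set B := T (e 1)
  set D := T (e 2)
  have d1 := hdiag ![1, 1, 1] (by intro i; fin_cases i <;> simp)
  have d2 := hdiag ![1, 1, -1] (by intro i; fin_cases i <;> simp)
  have d3 := hdiag ![1, -1, 1] (by intro i; fin_cases i <;> simp)
  have d4 := hdiag ![1, -1, -1] (by intro i; fin_cases i <;> simp)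
  simp only [Matrix.cons_val_zero, Matrix.cons_val_one, Matrix.cons_val] at d1 d2 d3 d4
  have hA := hTe 0
  have hB := hTe 1
  have hD := hTe 2
  have key : ‖(1 : ℝ) • A + (1 : ℝ) • B + (1 : ℝ) • D‖ ^ 2 +
      ‖(1 : ℝ) • A + (1 : ℝ) • B + (-1 : ℝ) • D‖ ^ 2 +
      ‖(1 : ℝ) • A + (-1 : ℝ) • B + (1 : ℝ) • D‖ ^ 2 +
      ‖(1 : ℝ) • A + (-1 : ℝ) • B + (-1 : ℝ) • D‖ ^ 2 =
      4 * (‖A‖ ^ 2 + ‖B‖ ^ 2 + ‖D‖ ^ 2) := by
    simp only [← real_inner_self_eq_norm_sq, inner_add_left, inner_add_right,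
      real_inner_smul_left, real_inner_smul_right]
    ring
  have hA2 : (36 / 107 : ℝ) ^ 2 ≤ ‖A‖ ^ 2 := by gcongr
  have hB2 : (36 / 107 : ℝ) ^ 2 ≤ ‖B‖ ^ 2 := by gcongr
  have hD2 : (36 / 107 : ℝ) ^ 2 ≤ ‖D‖ ^ 2 := by gcongr
  have h8 : (36 / 107 : ℝ) ^ 2 ≤ c ^ 2 / Real.pi ^ 2 := by
    have : 12 * (c ^ 2 / Real.pi ^ 2) = 3 * c ^ 2 / Real.pi ^ 2 + 3 * c ^ 2 / Real.pi ^ 2 +
      3 * c ^ 2 / Real.pi ^ 2 + 3 * c ^ 2 / Real.pi ^ 2 := by ring
    linarith
  rw [le_div_iff₀ (by positivity)] at h8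
  have h9 : (36 * Real.pi / 107) ^ 2 ≤ c ^ 2 := by
    calc (36 * Real.pi / 107) ^ 2 = (36 / 107 : ℝ) ^ 2 * Real.pi ^ 2 := by ring
      _ ≤ c ^ 2 := h8
  exact (pow_le_pow_iff_left₀ (by positivity) hc0.le (by norm_num)).mp h9

/-- There is an origin-symmetric convex body in dimension three whose intersection body is
further from the Euclidean ball, in Banach-Mazur distance, than the body itself. -/
theorem result : ∃ K : Set (E 3), IsSymConvexBody K ∧
    bmDist K (closedBall 0 1) < bmDist (intersectionBody K) (closedBall 0 1) := by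
  refine ⟨K0, K0_body, ?_⟩
  have h1 : 36 * Real.pi / 107 ≤ bmDist (intersectionBody K0) (closedBall 0 1) :=
    le_csInf dist_nonempty fun c hc => by
      obtain ⟨hc1, T, h1, h2⟩ := hc
      exact lower_bound c hc1 T h1 h2
  have h2 := dist_K0_le
  have h3 : Real.sqrt 10 / 3 < 36 * Real.pi / 107 := by
    have hs : Real.sqrt 10 < 3.163 := by
      rw [Real.sqrt_lt' (by norm_num)]; norm_num
    have := Real.pi_gt_d2
    nlinarith
  linarith

end Pool.Agent.Results.MP_4e5529_gt.Increase
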